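import Mathlib

set_option autoImplicit false

/-!
# Mean subtree order: a covariance identity
-/

namespace Pool.Agent.Run7.h487.MSO

open Finset SimpleGraph

variable {V : Type} [Fintype V]

/-- the set of the subtrees of `G` as a finite set -/
noncomputable def ST (G : SimpleGraph V) : Finset G.Subgraph :=
  (Set.toFinite {T : G.Subgraph | T.coe.IsTree}).toFinset

lemma mem_ST {G : SimpleGraph V} {T : G.Subgraph} : T ∈ ST G ↔ T.coe.IsTree := by
  unfold ST
  rw [Set.Finite.mem_toFinset]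
  exact Iff.rfl

/-- the number of the subtrees of `G` with exactly `k` vertices -/
noncomputable def s (G : SimpleGraph V) (k : ℕ) : ℕ :=
  {T : G.Subgraph | T.coe.IsTree ∧ T.verts.ncard = k}.ncard

/-- the mean subtree order -/
noncomputable def mu (G : SimpleGraph V) : ℝ :=
  (∑ k ∈ Icc 1 (Fintype.card V), (k : ℝ) * s G k) / ∑ k ∈ Icc 1 (Fintype.card V), (s G k : ℝ)

lemma s_eq (G : SimpleGraph V) (k : ℕ) :
    s G k = ((ST G).filter fun T => T.verts.ncard = k).card := by
  unfold s
  rw [← Set.ncard_coe_finset]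
  congr 1
  ext T
  simp [mem_ST]

lemma edge_card {G : SimpleGraph V} {T : G.Subgraph} (h : T.coe.IsTree) :
    T.edgeSet.ncard + 1 = T.verts.ncard := by
  have h1 := (isTree_iff_connected_and_card.1 h).2
  rw [Nat.card_coe_set_eq, Nat.card_coe_set_eq] at h1
  rw [← h1, ← Subgraph.image_coe_edgeSet_coe,
    Set.ncard_image_of_injective _ (Sym2.map.injective Subtype.val_injective)]

lemma size_mem {G : SimpleGraph V} {T : G.Subgraph} (h : T ∈ ST G) :
    T.verts.ncard ∈ Icc 1 (Fintype.card V) := by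
  rw [mem_ST] at h
  rw [mem_Icc]
  refine ⟨by have := edge_card h; omega, ?_⟩
  rw [← Nat.card_eq_fintype_card, ← Set.ncard_univ]
  exact Set.ncard_le_ncard (Set.subset_univ _)

lemma mu_eq (G : SimpleGraph V) :
    mu G = (∑ T ∈ ST G, (T.verts.ncard : ℝ)) / ((ST G).card : ℝ) := by
  unfold mu
  congr 1
  · rw [← Finset.sum_fiberwise_of_maps_to (s := ST G) (t := Icc 1 (Fintype.card V))
      (g := fun T : G.Subgraph => T.verts.ncard) (fun T hT => size_mem hT)]
    refine Finset.sum_congr rfl fun k _ => ?_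
    rw [s_eq, Finset.sum_congr rfl (g := fun _ => (k : ℝ)) (fun T hT => by
      rw [(Finset.mem_filter.1 hT).2]), Finset.sum_const, nsmul_eq_mul, mul_comm]
  · rw [Finset.card_eq_sum_card_fiberwise (f := fun T : G.Subgraph => T.verts.ncard)
      (t := Icc 1 (Fintype.card V)) (fun T hT => size_mem hT)]
    push_cast
    exact Finset.sum_congr rfl fun k _ => by rw [s_eq]

lemma single_mem (G : SimpleGraph V) (v : V) : G.singletonSubgraph v ∈ ST G := by
  rw [mem_ST, isTree_iff_connected_and_card]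
  refine ⟨Subgraph.singletonSubgraph_connected.coe, ?_⟩
  rw [Nat.card_coe_set_eq, Nat.card_coe_set_eq, ← Set.ncard_image_of_injective _
    (Sym2.map.injective (Subtype.val_injective (p := (· ∈ (G.singletonSubgraph v).verts)))),
    Subgraph.image_coe_edgeSet_coe]
  simp

lemma edge_mem {G : SimpleGraph V} {u v : V} (h : G.Adj u v) : G.subgraphOfAdj h ∈ ST G := by
  rw [mem_ST, isTree_iff_connected_and_card]
  refine ⟨(Subgraph.subgraphOfAdj_connected h).coe, ?_⟩
  rw [Nat.card_coe_set_eq, Nat.card_coe_set_eq, ← Set.ncard_image_of_injective _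
    (Sym2.map.injective (Subtype.val_injective (p := (· ∈ (G.subgraphOfAdj h).verts)))),
    Subgraph.image_coe_edgeSet_coe]
  simp [Set.ncard_pair h.ne]

/-- the subgraphs of `G` without the edge `e` -/
def lift (G : SimpleGraph V) (e : Sym2 V) (T : (G.deleteEdges {e}).Subgraph) : G.Subgraph where
  verts := T.verts
  Adj := T.Adj
  adj_sub h := (deleteEdges_le {e}) (T.adj_sub h)
  edge_vert := T.edge_vert
  symm := T.symm

omit [Fintype V] in
lemma lift_inj (G : SimpleGraph V) (e : Sym2 V) : Function.Injective (lift G e) := by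
  intro T T' h
  have h1 := congrArg Subgraph.verts h
  have h2 := congrArg Subgraph.Adj h
  exact Subgraph.ext h1 h2

open Classical in
lemma filter_eq (G : SimpleGraph V) (e : Sym2 V) :
    (ST G).filter (fun T => e ∉ T.edgeSet) = (ST (G.deleteEdges {e})).image (lift G e) := by
  ext T
  rw [mem_filter, mem_image, mem_ST]
  constructor
  · rintro ⟨h1, h2⟩
    refine ⟨⟨T.verts, T.Adj, ?_, T.edge_vert, T.symm⟩, ?_, rfl⟩
    · intro a b hab
      rw [deleteEdges_adj]
      refine ⟨T.adj_sub hab, fun h3 => h2 ?_⟩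
      rw [← Set.mem_singleton_iff.1 h3]
      exact Subgraph.mem_edgeSet.2 hab
    · rw [mem_ST]
      exact h1
  · rintro ⟨T', h1, rfl⟩
    rw [mem_ST] at h1
    refine ⟨h1, fun h2 => ?_⟩
    have h3 : e ∈ T'.edgeSet := h2
    have h4 := T'.edgeSet_subset h3
    rw [edgeSet_deleteEdges] at h4
    exact h4.2 rfl

open Classical in
lemma sum_delete' (G : SimpleGraph V) (e : Sym2 V) (f : G.Subgraph → ℝ) :
    ∑ T ∈ ST (G.deleteEdges {e}), f (lift G e T) =
      ∑ T ∈ (ST G).filter (fun T => e ∉ T.edgeSet), f T := by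
  rw [filter_eq, sum_image (fun T _ T' _ h => lift_inj G e h)]

open Classical in
lemma sum_delete (G : SimpleGraph V) (e : Sym2 V) (f : Set V → ℝ) :
    ∑ T ∈ ST (G.deleteEdges {e}), f T.verts =
      ∑ T ∈ (ST G).filter (fun T => e ∉ T.edgeSet), f T.verts :=
  sum_delete' G e fun T => f T.verts

/-- the mean of `f` over all subtrees -/
noncomputable def avg (G : SimpleGraph V) (f : G.Subgraph → ℝ) : ℝ :=
  (∑ T ∈ ST G, f T) / ((ST G).card : ℝ)

/-- the covariance of `f` and `g` for a uniformly random subtree -/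
noncomputable def cov (G : SimpleGraph V) (f g : G.Subgraph → ℝ) : ℝ :=
  avg G (fun T => f T * g T) - avg G f * avg G g

/-- the number of vertices of `T` -/
noncomputable def size {G : SimpleGraph V} (T : G.Subgraph) : ℝ := (T.verts.ncard : ℝ)

/-- the number of edges of `T` which are bridges of `G` -/
noncomputable def nb {G : SimpleGraph V} (T : G.Subgraph) : ℝ :=
  ({e | e ∈ T.edgeSet ∧ G.IsBridge e}.ncard : ℝ)

/-- the number of edges of `T` which are not bridges of `G` -/
noncomputable def nc {G : SimpleGraph V} (T : G.Subgraph) : ℝ :=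
  ({e | e ∈ T.edgeSet ∧ ¬ G.IsBridge e}.ncard : ℝ)

/-- the set of the edges of `G` which are not bridges -/
noncomputable def CE (G : SimpleGraph V) : Finset (Sym2 V) :=
  (Set.toFinite {e : Sym2 V | e ∈ G.edgeSet ∧ ¬ G.IsBridge e}).toFinset

lemma mem_CE {G : SimpleGraph V} {e : Sym2 V} : e ∈ CE G ↔ e ∈ G.edgeSet ∧ ¬ G.IsBridge e := by
  unfold CE
  rw [Set.Finite.mem_toFinset]
  exact Iff.rfl

open Classical in
lemma nc_eq {G : SimpleGraph V} (T : G.Subgraph) :
    nc T = ∑ e ∈ CE G, if e ∈ T.edgeSet then (1 : ℝ) else 0 := by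
  rw [Finset.sum_ite, Finset.sum_const_zero, add_zero, Finset.sum_const, nsmul_eq_mul, mul_one]
  unfold nc
  rw [← Set.ncard_coe_finset]
  congr 2
  ext e
  simp only [Set.mem_ofPred_eq, coe_filter, mem_CE]
  constructor
  · rintro ⟨h1, h2⟩
    exact ⟨⟨T.edgeSet_subset h1, h2⟩, h1⟩
  · rintro ⟨⟨-, h2⟩, h1⟩
    exact ⟨h1, h2⟩

lemma size_eq {G : SimpleGraph V} {T : G.Subgraph} (h : T ∈ ST G) : size T = 1 + nb T + nc T := by
  have h1 := edge_card (mem_ST.1 h)
  unfold size nb nc
  rw [← h1]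
  have h2 : T.edgeSet = {e | e ∈ T.edgeSet ∧ G.IsBridge e} ∪ {e | e ∈ T.edgeSet ∧ ¬ G.IsBridge e} := by
    ext e
    simp only [Set.mem_union, Set.mem_ofPred_eq]
    tauto
  have h3 : Disjoint {e | e ∈ T.edgeSet ∧ G.IsBridge e} {e | e ∈ T.edgeSet ∧ ¬ G.IsBridge e} := by
    rw [Set.disjoint_left]
    rintro e ⟨-, h⟩ ⟨-, h'⟩
    exact h' h
  have h4 := Set.ncard_union_eq h3
  rw [← h2] at h4
  rw [h4]
  push_cast
  ring

lemma card_pos [Nonempty V] (G : SimpleGraph V) : (0 : ℝ) < ((ST G).card : ℝ) := by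
  obtain ⟨v⟩ := ‹Nonempty V›
  exact_mod_cast Finset.card_pos.2 ⟨_, single_mem G v⟩

open Classical in
/-- deleting one edge: the change of the mean -/
lemma mu_delete [Nonempty V] (G : SimpleGraph V) (e : Sym2 V) {a : ℝ} (ha : 0 < a)
    (h : a ≤ (∑ T ∈ (ST G).filter (fun T => e ∈ T.edgeSet), size T) / ((ST G).card : ℝ) -
      mu G * (((ST G).filter (fun T => e ∈ T.edgeSet)).card / ((ST G).card : ℝ))) :
    mu (G.deleteEdges {e}) ≤ mu G - a := by
  obtain ⟨N, hN⟩ : ∃ N : ℝ, N = ((ST G).card : ℝ) := ⟨_, rfl⟩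
  obtain ⟨S, hS⟩ : ∃ S : ℝ, S = ∑ T ∈ ST G, size T := ⟨_, rfl⟩
  obtain ⟨Ne, hNe⟩ : ∃ Ne : ℝ, Ne = (((ST G).filter (fun T => e ∈ T.edgeSet)).card : ℝ) := ⟨_, rfl⟩
  obtain ⟨Se, hSe⟩ : ∃ Se : ℝ, Se = ∑ T ∈ (ST G).filter (fun T => e ∈ T.edgeSet), size T := ⟨_, rfl⟩
  have hN0 : 0 < N := by rw [hN]; exact card_pos G
  have h1 : mu G = S / N := by rw [mu_eq, hS, hN]; rfl
  have h2 : mu (G.deleteEdges {e}) = (S - Se) / (N - Ne) := by
    rw [mu_eq]
    congr 1
    · rw [sum_delete G e (fun W => (W.ncard : ℝ)), hS, hSe,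
        ← Finset.sum_filter_add_sum_filter_not (ST G) (fun T => e ∈ T.edgeSet) size]
      rw [add_sub_cancel_left]
      rfl
    · have h3 := sum_delete G e (fun _ => (1 : ℝ))
      simp only [Finset.sum_const, nsmul_eq_mul, mul_one] at h3
      rw [h3, hN, hNe, ← Finset.card_filter_add_card_filter_not (s := ST G) (fun T => e ∈ T.edgeSet)]
      push_cast
      ring
  have h3 : 0 < N - Ne := by
    have h4 : (0 : ℝ) < ((ST (G.deleteEdges {e})).card : ℝ) := card_pos _
    have h5 := sum_delete G e (fun _ => (1 : ℝ))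
    simp only [Finset.sum_const, nsmul_eq_mul, mul_one] at h5
    rw [h5] at h4
    have h6 := Finset.card_filter_add_card_filter_not (s := ST G) (fun T => e ∈ T.edgeSet)
    rw [hN, hNe, ← h6]
    push_cast
    linarith
  have h4 : 0 ≤ Ne := by rw [hNe]; positivity
  rw [← hN, ← hNe, ← hSe, h1] at h
  rw [h1, h2, div_le_iff₀ h3]
  have h5 : a * N ≤ Se - S / N * Ne := by
    have := mul_le_mul_of_nonneg_right h hN0.le
    calc a * N ≤ (Se / N - S / N * (Ne / N)) * N := this
      _ = Se - S / N * Ne := by field_simp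
  have h6 : (S / N - a) * (N - Ne) = S - a * N - S / N * Ne + a * Ne := by
    field_simp
    ring
  rw [h6]
  have h7 : 0 ≤ a * Ne := by positivity
  linarith

/-- **The main lemma.** -/
theorem main [Nonempty V] (G : SimpleGraph V) (h : 0 < cov G size nc) :
    ∃ e ∈ G.edgeSet, ¬ G.IsBridge e ∧
      mu (G.deleteEdges {e}) ≤ mu G - cov G size nc / ((CE G).card : ℝ) ∧
      0 < cov G size nc / ((CE G).card : ℝ) := by
  classical
  obtain ⟨a, ha⟩ : ∃ a : Sym2 V → ℝ, a = fun e =>
    (∑ T ∈ (ST G).filter (fun T => e ∈ T.edgeSet), size T) / ((ST G).card : ℝ) -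
      mu G * (((ST G).filter (fun T => e ∈ T.edgeSet)).card / ((ST G).card : ℝ)) := ⟨_, rfl⟩
  have h1 : ∑ e ∈ CE G, a e = cov G size nc := by
    rw [ha]
    unfold cov avg
    rw [Finset.sum_sub_distrib, ← Finset.sum_div, ← Finset.mul_sum, ← Finset.sum_div, mu_eq]
    congr 1
    · congr 1
      have h2 : ∀ T : G.Subgraph, size T * nc T =
          ∑ e ∈ CE G, if e ∈ T.edgeSet then size T else 0 := by
        intro T
        rw [nc_eq, Finset.mul_sum]
        exact Finset.sum_congr rfl fun e _ => by split_ifs <;> simp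
      rw [Finset.sum_congr rfl (fun T _ => h2 T), Finset.sum_comm]
      exact Finset.sum_congr rfl fun e _ => by rw [Finset.sum_filter]
    · congr 1
      congr 1
      rw [Finset.sum_congr rfl (fun T _ => nc_eq T), Finset.sum_comm]
      exact Finset.sum_congr rfl fun e _ => by
        rw [Finset.sum_ite, Finset.sum_const_zero, add_zero, Finset.sum_const, nsmul_eq_mul, mul_one]
  have h2 : (CE G).Nonempty := by
    rw [Finset.nonempty_iff_ne_empty]
    intro h3
    rw [h3, Finset.sum_empty] at h1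
    rw [← h1] at h
    exact lt_irrefl _ h
  have h3 : (0 : ℝ) < ((CE G).card : ℝ) := by exact_mod_cast Finset.card_pos.2 h2
  obtain ⟨e, he, hae⟩ : ∃ e ∈ CE G, cov G size nc / ((CE G).card : ℝ) ≤ a e := by
    refine Finset.exists_le_of_sum_le h2 ?_
    rw [Finset.sum_const, nsmul_eq_mul, h1, mul_div_cancel₀ _ h3.ne']
  obtain ⟨he1, he2⟩ := mem_CE.1 he
  have h4 : 0 < cov G size nc / ((CE G).card : ℝ) := div_pos h h3
  refine ⟨e, he1, he2, ?_, h4⟩
  rw [ha] at hae
  exact mu_delete G e h4 hae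

/-! ### covariances -/

lemma avg_congr {G : SimpleGraph V} {f g : G.Subgraph → ℝ} (h : ∀ T ∈ ST G, f T = g T) :
    avg G f = avg G g := by
  unfold avg
  rw [Finset.sum_congr rfl h]

lemma avg_add (G : SimpleGraph V) (f g : G.Subgraph → ℝ) :
    avg G (fun T => f T + g T) = avg G f + avg G g := by
  unfold avg
  rw [Finset.sum_add_distrib, add_div]

lemma avg_one [Nonempty V] (G : SimpleGraph V) : avg G (fun _ => 1) = 1 := by
  unfold avg
  rw [Finset.sum_const, nsmul_eq_mul, mul_one, div_self (card_pos G).ne']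

lemma cov_size [Nonempty V] (G : SimpleGraph V) : cov G size nc = cov G nb nc + cov G nc nc := by
  unfold cov
  have h1 : avg G size = 1 + avg G nb + avg G nc := by
    rw [avg_congr (g := fun T => (1 + nb T) + nc T) (fun T hT => size_eq hT), avg_add, avg_add,
      avg_one]
  have h2 : avg G (fun T => size T * nc T) =
      avg G nc + avg G (fun T => nb T * nc T) + avg G (fun T => nc T * nc T) := by
    rw [avg_congr (g := fun T => (nc T + nb T * nc T) + nc T * nc T)
      (fun T hT => by rw [size_eq hT]; ring), avg_add, avg_add]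
  rw [h1, h2]
  ring

/-- the variance as a sum of squares -/
lemma var_eq [Nonempty V] (G : SimpleGraph V) (f : G.Subgraph → ℝ) :
    cov G f f = (∑ T ∈ ST G, (f T - avg G f) ^ 2) / ((ST G).card : ℝ) := by
  obtain ⟨N, hN⟩ : ∃ N : ℝ, N = ((ST G).card : ℝ) := ⟨_, rfl⟩
  have hN0 : 0 < N := by rw [hN]; exact card_pos G
  obtain ⟨m, hm⟩ : ∃ m : ℝ, m = avg G f := ⟨_, rfl⟩
  rw [← hm, ← hN]
  have h2 : ∑ T ∈ ST G, (f T - m) ^ 2 =
      (∑ T ∈ ST G, f T * f T) - 2 * m * (∑ T ∈ ST G, f T) + N * m ^ 2 := by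
    rw [Finset.sum_congr rfl (g := fun T => f T * f T - 2 * m * f T + m ^ 2)
      (fun T _ => by ring), Finset.sum_add_distrib, Finset.sum_sub_distrib, ← Finset.mul_sum,
      Finset.sum_const, nsmul_eq_mul, hN]
  have h3 : ∑ T ∈ ST G, f T = N * m := by
    rw [hm, hN]
    unfold avg
    rw [mul_div_cancel₀ _ (by rw [← hN]; exact hN0.ne')]
  rw [h2, h3]
  unfold cov
  rw [← hm]
  unfold avg
  rw [← hN]
  field_simp
  ring

lemma var_nonneg [Nonempty V] (G : SimpleGraph V) (f : G.Subgraph → ℝ) : 0 ≤ cov G f f := by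
  rw [var_eq]
  exact div_nonneg (Finset.sum_nonneg fun _ _ => sq_nonneg _) (card_pos G).le

/-- a positive variance -/
lemma var_pos [Nonempty V] (G : SimpleGraph V) (f : G.Subgraph → ℝ) {T T' : G.Subgraph}
    (hT : T ∈ ST G) (hT' : T' ∈ ST G) (h : f T ≠ f T') : 0 < cov G f f := by
  rw [var_eq]
  refine div_pos ?_ (card_pos G)
  rcases ne_or_eq (f T) (avg G f) with h2 | h2
  · exact Finset.sum_pos' (fun _ _ => sq_nonneg _) ⟨T, hT, by
      have : f T - avg G f ≠ 0 := sub_ne_zero.2 h2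
      positivity⟩
  · exact Finset.sum_pos' (fun _ _ => sq_nonneg _) ⟨T', hT', by
      have : f T' - avg G f ≠ 0 := by rw [← h2]; exact sub_ne_zero.2 (Ne.symm h)
      positivity⟩

lemma var_nc_pos [Nonempty V] (G : SimpleGraph V) {e : Sym2 V} (he : e ∈ G.edgeSet) (hb : ¬ G.IsBridge e) :
    0 < cov G nc nc := by
  induction e with
  | h u v =>
    rw [mem_edgeSet] at he
    refine var_pos G nc (single_mem G u) (edge_mem he) ?_
    have h1 : nc (G.singletonSubgraph u) = 0 := by
      unfold nc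
      simp
    have h2 : nc (G.subgraphOfAdj he) = 1 := by
      unfold nc
      have h3 : {e | e ∈ (G.subgraphOfAdj he).edgeSet ∧ ¬ G.IsBridge e} = {s(u, v)} := by
        ext e
        simp only [Set.mem_ofPred_eq, edgeSet_subgraphOfAdj, Set.mem_singleton_iff]
        constructor
        · exact fun h => h.1
        · rintro rfl
          exact ⟨rfl, hb⟩
      rw [h3, Set.ncard_singleton, Nat.cast_one]
    rw [h1, h2]
    exact zero_ne_one

end Pool.Agent.Run7.h487.MSO
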