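import Pool.Agent.Run7.h487.MSO.A

set_option autoImplicit false

/-!
# Subtrees of a graph: extending a subtree to a given vertex
-/

namespace Pool.Agent.Run7.h487.MSO

open Finset SimpleGraph

variable {V : Type} [Fintype V]

lemma tree_conn {K : SimpleGraph V} {T : K.Subgraph} (h : T ∈ ST K) : T.Connected :=
  (Subgraph.connected_iff' (H := T)).2 (mem_ST.1 h).connected

lemma mem_ST_iff {K : SimpleGraph V} {T : K.Subgraph} :
    T ∈ ST K ↔ T.Connected ∧ T.edgeSet.ncard + 1 = T.verts.ncard := by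
  rw [mem_ST, isTree_iff_connected_and_card, Subgraph.connected_iff', Nat.card_coe_set_eq,
    Nat.card_coe_set_eq, ← Set.ncard_image_of_injective _
    (Sym2.map.injective (Subtype.val_injective (p := (· ∈ T.verts)))),
    Subgraph.image_coe_edgeSet_coe]

/-- adding a vertex to a subtree -/
lemma add_mem {K : SimpleGraph V} {T : K.Subgraph} (hT : T ∈ ST K) {w p : V} (h : K.Adj w p)
    (hw : w ∈ T.verts) (hp : p ∉ T.verts) :
    T ⊔ K.subgraphOfAdj h ∈ ST K ∧
      (T ⊔ K.subgraphOfAdj h).verts.ncard = T.verts.ncard + 1 := by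
  obtain ⟨h1, h2⟩ := mem_ST_iff.1 hT
  have h3 : (T ⊔ K.subgraphOfAdj h).verts = insert p T.verts := by
    ext x
    simp only [Subgraph.verts_sup, subgraphOfAdj_verts, Set.mem_union, Set.mem_insert_iff,
      Set.mem_singleton_iff]
    constructor
    · rintro (hx | rfl | rfl)
      · exact Or.inr hx
      · exact Or.inr hw
      · exact Or.inl rfl
    · rintro (rfl | hx)
      · exact Or.inr (Or.inr rfl)
      · exact Or.inl hx
  have h4 : (T ⊔ K.subgraphOfAdj h).edgeSet = insert s(w, p) T.edgeSet := by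
    rw [Subgraph.edgeSet_sup, edgeSet_subgraphOfAdj, Set.union_singleton]
  have h5 : s(w, p) ∉ T.edgeSet := fun h6 => hp (T.edge_vert (Subgraph.mem_edgeSet.1 h6).symm)
  have h6 : (T ⊔ K.subgraphOfAdj h).verts.ncard = T.verts.ncard + 1 := by
    rw [h3, Set.ncard_insert_of_notMem hp]
  refine ⟨?_, h6⟩
  rw [mem_ST_iff, h6, h4, Set.ncard_insert_of_notMem h5, h2]
  refine ⟨?_, rfl⟩
  refine Subgraph.connected_sup h1.preconnected (Subgraph.subgraphOfAdj_connected h).preconnected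
    ⟨w, ?_⟩
  rw [Subgraph.verts_inf]
  exact ⟨hw, Or.inl rfl⟩

/-- the subtrees of `K` at the distance `j` from `u` -/
def Dl (K : SimpleGraph V) (u : V) (j : ℕ) (T : K.Subgraph) : Prop :=
  T ∈ ST K ∧ (∀ w ∈ T.verts, K.Reachable u w ∧ j ≤ K.dist u w) ∧ ∃ w ∈ T.verts, K.dist u w = j

lemma step_exists {K : SimpleGraph V} {u : V} {j : ℕ} {T : K.Subgraph} (h : Dl K u (j + 1) T) :
    ∃ (w p : V) (hwp : K.Adj w p), w ∈ T.verts ∧ p ∉ T.verts ∧ K.dist u p = j ∧
      K.Reachable u p := by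
  obtain ⟨h1, h2, w, hw, hj⟩ := h
  obtain ⟨q, hq⟩ := (h2 w hw).1.symm.exists_walk_length_eq_dist
  rw [dist_comm, hj] at hq
  cases q with
  | nil => simp at hq
  | cons hadj q' =>
    rename_i p
    rw [Walk.length_cons] at hq
    have hp1 : K.dist u p ≤ j := by
      rw [dist_comm]
      exact (dist_le q').trans (by omega)
    have hr : K.Reachable u p := ⟨q'.reverse⟩
    have hp2 : K.dist u w ≤ K.dist u p + 1 := by
      obtain ⟨r, hr'⟩ := hr.exists_walk_length_eq_dist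
      have := dist_le (r.concat hadj.symm)
      rw [Walk.length_concat, hr'] at this
      exact this
    have hp : K.dist u p = j := by omega
    refine ⟨w, p, hadj, hw, fun hpT => ?_, hp, hr⟩
    have := (h2 p hpT).2
    omega

/-- the structure of one step -/
lemma step {K : SimpleGraph V} (u : V) (j : ℕ) : ∃ f : K.Subgraph → K.Subgraph,
    (∀ T, Dl K u (j + 1) T → Dl K u j (f T) ∧ T ≤ f T ∧
      (f T).verts.ncard = T.verts.ncard + 1) ∧
    ∀ T S, Dl K u (j + 1) T → Dl K u (j + 1) S → f T = f S → T = S := by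
  classical
  have hc : ∀ T : K.Subgraph, ∃ T' : K.Subgraph, Dl K u (j + 1) T →
      ∃ (w p : V) (hwp : K.Adj w p), w ∈ T.verts ∧ p ∉ T.verts ∧ K.dist u p = j ∧
        K.Reachable u p ∧ T' = T ⊔ K.subgraphOfAdj hwp := by
    intro T
    by_cases h : Dl K u (j + 1) T
    · obtain ⟨w, p, hwp, h1, h2, h3, h4⟩ := step_exists h
      exact ⟨_, fun _ => ⟨w, p, hwp, h1, h2, h3, h4, rfl⟩⟩
    · exact ⟨T, fun h' => absurd h' h⟩
  choose f hf using hc
  refine ⟨f, fun T hT => ?_, fun T S hT hS hfe => ?_⟩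
  · obtain ⟨w, p, hwp, h1, h2, h3, h4, h5⟩ := hf T hT
    rw [h5]
    obtain ⟨a1, a2⟩ := add_mem hT.1 hwp h1 h2
    refine ⟨⟨a1, ?_, p, ?_, h3⟩, le_sup_left, a2⟩
    · rintro x (hx | rfl | rfl)
      · exact ⟨(hT.2.1 x hx).1, (Nat.le_succ j).trans (hT.2.1 x hx).2⟩
      · exact ⟨(hT.2.1 _ h1).1, (Nat.le_succ j).trans (hT.2.1 _ h1).2⟩
      · exact ⟨h4, h3.ge⟩
    · exact Or.inr (Or.inr rfl)
  · -- recover `T` from `f T`
    have key : ∀ T : K.Subgraph, Dl K u (j + 1) T → ∀ x, (x ∈ T.verts ↔ x ∈ (f T).verts ∧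
        K.dist u x ≠ j) ∧ ∀ y, T.Adj x y ↔ (f T).Adj x y ∧ K.dist u x ≠ j ∧ K.dist u y ≠ j := by
      intro T hT x
      obtain ⟨w, p, hwp, h1, h2, h3, h4, h5⟩ := hf T hT
      have hd : ∀ z ∈ T.verts, K.dist u z ≠ j := fun z hz => by
        have := (hT.2.1 z hz).2
        omega
      rw [h5]
      refine ⟨⟨fun hx => ⟨Or.inl hx, hd x hx⟩, ?_⟩, fun y => ⟨fun hxy =>
        ⟨Or.inl hxy, hd x (T.edge_vert hxy), hd y (T.edge_vert hxy.symm)⟩, ?_⟩⟩
      · rintro ⟨hx | hx | hx, hx'⟩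
        · exact hx
        · rw [hx]; exact h1
        · rw [hx] at hx'; exact absurd h3 hx'
      · rintro ⟨hxy | hxy, hx', hy'⟩
        · exact hxy
        · rw [subgraphOfAdj_adj] at hxy
          rcases Sym2.eq_iff.1 hxy with ⟨rfl, rfl⟩ | ⟨rfl, rfl⟩
          · exact absurd h3 hy'
          · exact absurd h3 hx'
    refine Subgraph.ext ?_ ?_
    · ext x
      rw [(key T hT x).1, (key S hS x).1, hfe]
    · ext x y
      rw [(key T hT x).2, (key S hS x).2, hfe]

/-- **The injection.** -/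
lemma inj {K : SimpleGraph V} (u : V) (j : ℕ) : ∃ f : K.Subgraph → K.Subgraph,
    (∀ T, Dl K u j T → Dl K u 0 (f T) ∧ T ≤ f T ∧ (f T).verts.ncard = T.verts.ncard + j) ∧
    ∀ T S, Dl K u j T → Dl K u j S → f T = f S → T = S := by
  induction j with
  | zero => exact ⟨id, fun T h => ⟨h, le_rfl, rfl⟩, fun _ _ _ _ h => h⟩
  | succ j ih =>
    obtain ⟨f, hf, hi⟩ := ih
    obtain ⟨g, hg, hgi⟩ := step (K := K) u j
    refine ⟨fun T => f (g T), fun T hT => ?_, fun T S hT hS h => ?_⟩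
    · obtain ⟨h1, h2, h3⟩ := hg T hT
      obtain ⟨h4, h5, h6⟩ := hf _ h1
      exact ⟨h4, h2.trans h5, by rw [h6, h3]; ring⟩
    · exact hgi T S hT hS (hi _ _ (hg T hT).1 (hg S hS).1 h)

lemma level_zero {K : SimpleGraph V} {u : V} {T : K.Subgraph} (h : Dl K u 0 T) :
    T ∈ ST K ∧ u ∈ T.verts := by
  obtain ⟨h1, h2, w, hw, h3⟩ := h
  refine ⟨h1, ?_⟩
  have := (h2 w hw).1.dist_eq_zero_iff.1 h3
  rw [this]
  exact hw

/-- every subtree all of whose vertices are reachable has a level -/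
lemma has_level {K : SimpleGraph V} {u : V} {T : K.Subgraph} (h : T ∈ ST K)
    (hr : ∀ w ∈ T.verts, K.Reachable u w) : ∃ j, j ∈ range (Fintype.card V) ∧ Dl K u j T := by
  classical
  have hne : ∃ j, ∃ w ∈ T.verts, K.dist u w = j := by
    have h1 := size_mem h
    rw [mem_Icc] at h1
    have h2 : T.verts.Nonempty := by
      rw [Set.nonempty_iff_ne_empty]
      intro h3
      rw [h3, Set.ncard_empty] at h1
      omega
    obtain ⟨w, hw⟩ := h2
    exact ⟨_, w, hw, rfl⟩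
  refine ⟨Nat.find hne, ?_, h, fun w hw => ⟨hr w hw, Nat.find_min' hne ⟨w, hw, rfl⟩⟩,
    Nat.find_spec hne⟩
  obtain ⟨w, hw, hd⟩ := Nat.find_spec hne
  rw [mem_range, ← hd]
  obtain ⟨q, hq⟩ := (hr w hw).exists_walk_length_eq_dist
  have h1 := (q.bypass_isPath).length_lt
  have h2 := q.length_bypass_le
  have h3 := dist_le q.bypass
  omega

lemma level_unique {K : SimpleGraph V} {u : V} {i j : ℕ} {T : K.Subgraph} (h : Dl K u i T)
    (h' : Dl K u j T) : i = j := by
  obtain ⟨w, hw, h1⟩ := h.2.2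
  obtain ⟨w', hw', h1'⟩ := h'.2.2
  have h2 := (h.2.1 w' hw').2
  have h3 := (h'.2.1 w hw).2
  omega

end Pool.Agent.Run7.h487.MSO
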