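import Pool.Agent.Run7.h487.MSO.B

set_option autoImplicit false

/-!
# The subtrees which contain a given bridge
-/

namespace Pool.Agent.Run7.h487.MSO

open Finset SimpleGraph

variable {V : Type} [Fintype V]

/-- the number of the edges of `T` which are not bridges -/
noncomputable def ncn {G : SimpleGraph V} (T : G.Subgraph) : ℕ :=
  {e | e ∈ T.edgeSet ∧ ¬ G.IsBridge e}.ncard

/-- the number of the bridges of `G` -/
noncomputable def nbr (G : SimpleGraph V) : ℕ := {e : Sym2 V | e ∈ G.edgeSet ∧ G.IsBridge e}.ncard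

omit [Fintype V] in
lemma nc_eq_ncn {G : SimpleGraph V} (T : G.Subgraph) : nc T = (ncn T : ℝ) := rfl

lemma sum_levels (n b y : ℕ) : ∑ j ∈ range n, (y - (j - b)) ≤ (b + 1) * y ^ 2 := by
  have h1 : ∑ j ∈ range n, (y - (j - b)) ≤ ∑ j ∈ range n, (if j < b + y then y else 0) := by
    refine Finset.sum_le_sum fun j _ => ?_
    split_ifs with h <;> omega
  have h2 : ∑ j ∈ range n, (if j < b + y then y else 0) ≤ (b + y) * y := by
    rw [Finset.sum_ite, Finset.sum_const_zero, add_zero, Finset.sum_const, smul_eq_mul]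
    refine Nat.mul_le_mul_right _ ?_
    calc ((range n).filter fun j => j < b + y).card ≤ (range (b + y)).card := by
          refine Finset.card_le_card fun j hj => ?_
          rw [mem_range]
          exact (mem_filter.1 hj).2
      _ = b + y := card_range _
  have h3 : (b + y) * y ≤ (b + 1) * y ^ 2 := by
    rcases Nat.eq_zero_or_pos y with rfl | hy
    · simp
    · nlinarith [Nat.mul_le_mul_left b (Nat.mul_le_mul_right y hy)]
  exact h1.trans (h2.trans h3)

section bridge

variable (G : SimpleGraph V) (e : Sym2 V)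

/-- the number of the non-bridges of `G` in a subgraph of `G` without `e` -/
noncomputable def xx (T : (G.deleteEdges {e}).Subgraph) : ℕ := ncn (lift G e T)

lemma xx_mono {T T' : (G.deleteEdges {e}).Subgraph} (h : T ≤ T') : xx G e T ≤ xx G e T' := by
  unfold xx ncn
  refine Set.ncard_le_ncard ?_ (Set.toFinite _)
  rintro f ⟨h1, h2⟩
  exact ⟨Subgraph.edgeSet_mono h h1, h2⟩

lemma xx_size {T : (G.deleteEdges {e}).Subgraph} (hT : T ∈ ST (G.deleteEdges {e}))
    (he : e ∈ G.edgeSet) (hb : G.IsBridge e) :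
    xx G e T + 1 ≤ T.verts.ncard ∧ T.verts.ncard ≤ xx G e T + nbr G := by
  have h1 := edge_card (mem_ST.1 hT)
  have h2 : T.edgeSet = {f | f ∈ T.edgeSet ∧ ¬ G.IsBridge f} ∪
      {f | f ∈ T.edgeSet ∧ G.IsBridge f} := by
    ext f
    simp only [Set.mem_union, Set.mem_ofPred_eq]
    tauto
  have h3 : Disjoint {f | f ∈ T.edgeSet ∧ ¬ G.IsBridge f} {f | f ∈ T.edgeSet ∧ G.IsBridge f} := by
    rw [Set.disjoint_left]
    rintro f ⟨-, h⟩ ⟨-, h'⟩
    exact h h'
  have h4 := Set.ncard_union_eq h3
  rw [← h2] at h4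
  have h5 : xx G e T = {f | f ∈ T.edgeSet ∧ ¬ G.IsBridge f}.ncard := rfl
  have h6 : {f | f ∈ T.edgeSet ∧ G.IsBridge f}.ncard + 1 ≤ nbr G := by
    unfold nbr
    have h7 : e ∉ {f | f ∈ T.edgeSet ∧ G.IsBridge f} := by
      rintro ⟨h8, -⟩
      have h9 := T.edgeSet_subset h8
      rw [edgeSet_deleteEdges] at h9
      exact h9.2 rfl
    rw [← Set.ncard_insert_of_notMem h7]
    refine Set.ncard_le_ncard ?_ (Set.toFinite _)
    rintro f (rfl | ⟨h8, h9⟩)
    · exact ⟨he, hb⟩
    · refine ⟨?_, h9⟩
      have := T.edgeSet_subset h8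
      rw [edgeSet_deleteEdges] at this
      exact this.1
  omega

open Classical in
/-- the subtrees in the component of `u` -/
noncomputable def side (u : V) : Finset (G.deleteEdges {e}).Subgraph :=
  (ST (G.deleteEdges {e})).filter fun T => ∀ w ∈ T.verts, (G.deleteEdges {e}).Reachable u w

open Classical in
/-- the subtrees without `e` which contain `u` -/
noncomputable def US (u : V) : Finset (G.deleteEdges {e}).Subgraph :=
  (ST (G.deleteEdges {e})).filter fun T => u ∈ T.verts

lemma side_sum (u : V) (he : e ∈ G.edgeSet) (hb : G.IsBridge e) (c : ℕ) :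
    ∑ T ∈ side G e u, (xx G e T - c) ≤ nbr G * ∑ T ∈ US G e u, (xx G e T - c) ^ 2 := by
  classical
  have hβ : 1 ≤ nbr G := by
    unfold nbr
    exact (Set.ncard_pos (Set.toFinite _)).2 ⟨e, he, hb⟩
  obtain ⟨b, hb'⟩ : ∃ b, nbr G = b + 1 := ⟨nbr G - 1, by omega⟩
  have h1 : ∑ T ∈ side G e u, (xx G e T - c) ≤ ∑ j ∈ range (Fintype.card V),
      ∑ T ∈ (ST (G.deleteEdges {e})).filter (fun T => Dl (G.deleteEdges {e}) u j T),
        (xx G e T - c) := by
    rw [← Finset.sum_biUnion]
    · refine Finset.sum_le_sum_of_subset fun T hT => ?_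
      unfold side at hT
      obtain ⟨h2, h3⟩ := mem_filter.1 hT
      obtain ⟨j, h4, h5⟩ := has_level h2 h3
      exact mem_biUnion.2 ⟨j, h4, mem_filter.2 ⟨h2, h5⟩⟩
    · intro i _ j _ hij
      rw [Function.onFun, Finset.disjoint_left]
      intro T hT hT'
      exact hij (level_unique (mem_filter.1 hT).2 (mem_filter.1 hT').2)
  have h2 : ∀ j ∈ range (Fintype.card V),
      ∑ T ∈ (ST (G.deleteEdges {e})).filter (fun T => Dl (G.deleteEdges {e}) u j T),
        (xx G e T - c) ≤ ∑ T ∈ US G e u, ((xx G e T - c) - (j - b)) := by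
    intro j _
    obtain ⟨f, hf, hi⟩ := inj (K := G.deleteEdges {e}) u j
    calc ∑ T ∈ (ST (G.deleteEdges {e})).filter (fun T => Dl (G.deleteEdges {e}) u j T),
          (xx G e T - c) ≤
        ∑ T ∈ (ST (G.deleteEdges {e})).filter (fun T => Dl (G.deleteEdges {e}) u j T),
          ((xx G e (f T) - c) - (j - b)) := by
          refine Finset.sum_le_sum fun T hT => ?_
          obtain ⟨h3, h4⟩ := mem_filter.1 hT
          obtain ⟨h5, h6, h7⟩ := hf T h4
          have h8 := xx_mono G e h6
          have h9 := (xx_size G e h3 he hb).1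
          have h10 := (xx_size G e (level_zero h5).1 he hb).2
          omega
      _ = ∑ T ∈ ((ST (G.deleteEdges {e})).filter
          (fun T => Dl (G.deleteEdges {e}) u j T)).image f, ((xx G e T - c) - (j - b)) := by
          rw [Finset.sum_image]
          intro T hT S hS h
          exact hi T S (mem_filter.1 hT).2 (mem_filter.1 hS).2 h
      _ ≤ _ := by
          refine Finset.sum_le_sum_of_subset fun T hT => ?_
          obtain ⟨S, hS, rfl⟩ := mem_image.1 hT
          obtain ⟨h3, h4⟩ := level_zero (hf S (mem_filter.1 hS).2).1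
          unfold US
          exact mem_filter.2 ⟨h3, h4⟩
  refine h1.trans ((Finset.sum_le_sum h2).trans ?_)
  rw [Finset.sum_comm, Finset.mul_sum, hb']
  exact Finset.sum_le_sum fun T _ => sum_levels _ _ _

/-- many subtrees contain `u` -/
lemma card_US (u : V) :
    {w | (G.deleteEdges {e}).Reachable u w}.ncard ≤ (US G e u).card := by
  classical
  have h1 : ∀ w : V, ∃ T : (G.deleteEdges {e}).Subgraph, (G.deleteEdges {e}).Reachable u w →
      ∃ f : (G.deleteEdges {e}).Subgraph → (G.deleteEdges {e}).Subgraph,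
        f = Classical.choose (inj (K := G.deleteEdges {e}) u ((G.deleteEdges {e}).dist u w)) ∧
        T = f ((G.deleteEdges {e}).singletonSubgraph w) := fun w =>
    ⟨Classical.choose (inj (K := G.deleteEdges {e}) u ((G.deleteEdges {e}).dist u w))
      ((G.deleteEdges {e}).singletonSubgraph w), fun _ => ⟨_, rfl, rfl⟩⟩
  choose g hg using h1
  have hlev : ∀ w, (G.deleteEdges {e}).Reachable u w →
      Dl (G.deleteEdges {e}) u ((G.deleteEdges {e}).dist u w)
        ((G.deleteEdges {e}).singletonSubgraph w) := by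
    intro w hw
    refine ⟨single_mem _ w, ?_, w, rfl, rfl⟩
    rintro x hx
    have hx' : x = w := hx
    rw [hx']
    exact ⟨hw, le_rfl⟩
  have hspec : ∀ w, (hw : (G.deleteEdges {e}).Reachable u w) → g w ∈ US G e u ∧
      (g w).verts.ncard = 1 + (G.deleteEdges {e}).dist u w := by
    intro w hw
    obtain ⟨f, hf, hgw⟩ := hg w hw
    have h2 := Classical.choose_spec
      (inj (K := G.deleteEdges {e}) u ((G.deleteEdges {e}).dist u w))
    rw [← hf] at h2
    obtain ⟨h3, -, h5⟩ := h2.1 _ (hlev w hw)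
    rw [← hgw] at h3 h5
    obtain ⟨h6, h7⟩ := level_zero h3
    refine ⟨mem_filter.2 ⟨h6, h7⟩, ?_⟩
    rw [h5]
    congr 1
    exact Set.ncard_singleton w
  have hinj : Set.InjOn g {w | (G.deleteEdges {e}).Reachable u w} := by
    intro w hw w' hw' h
    have hd : (G.deleteEdges {e}).dist u w = (G.deleteEdges {e}).dist u w' := by
      have h1 := (hspec w hw).2
      have h2 := (hspec w' hw').2
      rw [h] at h1
      omega
    obtain ⟨f, hf, hgw⟩ := hg w hw
    obtain ⟨f', hf', hgw'⟩ := hg w' hw'
    have hff : f = f' := by rw [hf, hf', hd]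
    have h2 := Classical.choose_spec
      (inj (K := G.deleteEdges {e}) u ((G.deleteEdges {e}).dist u w))
    rw [← hf] at h2
    have h3 := h2.2 _ _ (hlev w hw) (by rw [hd]; exact hlev w' hw')
      (by rw [← hgw, h, hgw', hff])
    have h4 := congrArg Subgraph.verts h3
    exact Set.singleton_injective h4
  calc {w | (G.deleteEdges {e}).Reachable u w}.ncard =
      (g '' {w | (G.deleteEdges {e}).Reachable u w}).ncard := (hinj.ncard_image).symm
    _ ≤ ((US G e u : Finset _) : Set (G.deleteEdges {e}).Subgraph).ncard := by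
        refine Set.ncard_le_ncard ?_ (Set.toFinite _)
        rintro T ⟨w, hw, rfl⟩
        exact (hspec w hw).1
    _ = (US G e u).card := Set.ncard_coe_finset _

end bridge

end Pool.Agent.Run7.h487.MSO
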