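import Pool.Agent.Run7.h487.MSO.C

set_option autoImplicit false

/-!
# Gluing two subtrees along a bridge
-/

namespace Pool.Agent.Run7.h487.MSO

open Finset SimpleGraph

variable {V : Type} [Fintype V]

lemma reach_of_mem {K : SimpleGraph V} {T : K.Subgraph} (hT : T ∈ ST K) {u w : V}
    (hu : u ∈ T.verts) (hw : w ∈ T.verts) : K.Reachable u w :=
  ((tree_conn hT).coe.preconnected ⟨u, hu⟩ ⟨w, hw⟩).map T.hom

omit [Fintype V] in
lemma cover {G : SimpleGraph V} (hG : G.Connected) {e : Sym2 V} {a b : V} (hab : e = s(a, b))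
    (w : V) : (G.deleteEdges {e}).Reachable a w ∨ (G.deleteEdges {e}).Reachable b w := by
  obtain ⟨q⟩ := hG w a
  induction q with
  | nil => exact Or.inl (Reachable.refl _)
  | cons hadj q ih =>
    rename_i x y z
    have ih := ih hab
    by_cases h : s(x, y) = e
    · rw [hab] at h
      rcases Sym2.eq_iff.1 h with ⟨rfl, rfl⟩ | ⟨rfl, rfl⟩
      · exact Or.inl (Reachable.refl _)
      · exact Or.inr (Reachable.refl _)
    · have h1 : (G.deleteEdges {e}).Adj y x := by
        rw [deleteEdges_adj]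
        exact ⟨hadj.symm, fun h2 => h (by rw [Sym2.eq_swap]; exact Set.mem_singleton_iff.1 h2)⟩
      rcases ih with ih | ih
      · exact Or.inl (ih.trans h1.reachable)
      · exact Or.inr (ih.trans h1.reachable)

lemma lift_mem {G : SimpleGraph V} {e : Sym2 V} {T : (G.deleteEdges {e}).Subgraph}
    (h : T ∈ ST (G.deleteEdges {e})) : lift G e T ∈ ST G := by
  rw [mem_ST] at h ⊢
  exact h

section glue

variable {G : SimpleGraph V} {e : Sym2 V} {a b : V}

/-- two subtrees joined by the bridge `ab` -/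
def glue (h : G.Adj a b) (T S : (G.deleteEdges {e}).Subgraph) : G.Subgraph :=
  (lift G e T ⊔ G.subgraphOfAdj h) ⊔ lift G e S

omit [Fintype V] in
lemma not_reach (hab : e = s(a, b)) (hb : G.IsBridge e) :
    ¬ (G.deleteEdges {e}).Reachable a b := by
  subst hab
  exact hb

omit [Fintype V] in
lemma glue_adj (h : G.Adj a b) (T S : (G.deleteEdges {e}).Subgraph) (x y : V) :
    (glue h T S).Adj x y ↔ (T.Adj x y ∨ s(a, b) = s(x, y)) ∨ S.Adj x y := Iff.rfl

omit [Fintype V] in
lemma glue_verts (h : G.Adj a b) (T S : (G.deleteEdges {e}).Subgraph) (hT : a ∈ T.verts)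
    (hS : b ∈ S.verts) : (glue h T S).verts = T.verts ∪ S.verts := by
  ext x
  constructor
  · rintro ((hx | rfl | rfl) | hx)
    · exact Or.inl hx
    · exact Or.inl hT
    · exact Or.inr hS
    · exact Or.inr hx
  · rintro (hx | hx)
    · exact Or.inl (Or.inl hx)
    · exact Or.inr hx

omit [Fintype V] in
lemma no_e (T : (G.deleteEdges {e}).Subgraph) : e ∉ T.edgeSet := by
  intro h
  have h9 := T.edgeSet_subset h
  rw [edgeSet_deleteEdges] at h9
  exact h9.2 rfl

lemma glue_edges (hab : e = s(a, b)) (h : G.Adj a b) (T S : (G.deleteEdges {e}).Subgraph) :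
    (glue h T S).edgeSet = insert e (T.edgeSet ∪ S.edgeSet) := by
  ext f
  induction f with
  | h x y =>
    rw [Subgraph.mem_edgeSet, glue_adj, Set.mem_insert_iff, Set.mem_union, Subgraph.mem_edgeSet,
      Subgraph.mem_edgeSet]
    constructor
    · rintro ((h1 | h1) | h1)
      · exact Or.inr (Or.inl h1)
      · exact Or.inl (h1.symm.trans hab.symm)
      · exact Or.inr (Or.inr h1)
    · rintro (h1 | h1 | h1)
      · exact Or.inl (Or.inr (h1.trans hab).symm)
      · exact Or.inl (Or.inl h1)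
      · exact Or.inr h1

lemma disj_verts (hab : e = s(a, b)) (hb : G.IsBridge e) {T S : (G.deleteEdges {e}).Subgraph}
    (hT : T ∈ ST (G.deleteEdges {e})) (hS : S ∈ ST (G.deleteEdges {e})) (haT : a ∈ T.verts)
    (hbS : b ∈ S.verts) : Disjoint T.verts S.verts := by
  rw [Set.disjoint_left]
  intro x hx hx'
  exact not_reach hab hb ((reach_of_mem hT haT hx).trans (reach_of_mem hS hbS hx').symm)

omit [Fintype V] in
lemma disj_edges {T S : (G.deleteEdges {e}).Subgraph} (h : Disjoint T.verts S.verts) :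
    Disjoint T.edgeSet S.edgeSet := by
  rw [Set.disjoint_left]
  intro f
  induction f with
  | h x y =>
    intro h1 h2
    exact Set.disjoint_left.1 h (T.edge_vert (Subgraph.mem_edgeSet.1 h1))
      (S.edge_vert (Subgraph.mem_edgeSet.1 h2))

lemma glue_mem (hab : e = s(a, b)) (h : G.Adj a b) (hb : G.IsBridge e)
    {T S : (G.deleteEdges {e}).Subgraph} (hT : T ∈ US G e a) (hS : S ∈ US G e b) :
    glue h T S ∈ ST G ∧ e ∈ (glue h T S).edgeSet ∧ ncn (glue h T S) = xx G e T + xx G e S := by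
  classical
  obtain ⟨hT1, hT2⟩ := mem_filter.1 hT
  obtain ⟨hS1, hS2⟩ := mem_filter.1 hS
  have hd := disj_verts hab hb hT1 hS1 hT2 hS2
  have hde := disj_edges hd
  have he1 : e ∉ T.edgeSet ∪ S.edgeSet := by
    rintro (h1 | h1)
    · exact no_e T h1
    · exact no_e S h1
  refine ⟨?_, ?_, ?_⟩
  · rw [mem_ST_iff]
    constructor
    · have c1 : (lift G e T ⊔ G.subgraphOfAdj h).Connected :=
        Subgraph.connected_sup (tree_conn (lift_mem hT1)).preconnected
          (Subgraph.subgraphOfAdj_connected h).preconnected ⟨a, hT2, Or.inl rfl⟩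
      exact Subgraph.connected_sup c1.preconnected (tree_conn (lift_mem hS1)).preconnected
        ⟨b, Or.inr (Or.inr rfl), hS2⟩
    · rw [glue_verts h T S hT2 hS2, glue_edges hab, Set.ncard_insert_of_notMem he1,
        Set.ncard_union_eq hde, Set.ncard_union_eq hd, ← edge_card (mem_ST.1 hT1),
        ← edge_card (mem_ST.1 hS1)]
      ring
  · rw [glue_edges hab]
    exact Or.inl rfl
  · unfold xx ncn
    rw [glue_edges hab]
    have h1 : {f | f ∈ insert e (T.edgeSet ∪ S.edgeSet) ∧ ¬ G.IsBridge f} =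
        {f | f ∈ T.edgeSet ∧ ¬ G.IsBridge f} ∪ {f | f ∈ S.edgeSet ∧ ¬ G.IsBridge f} := by
      ext f
      simp only [Set.mem_insert_iff, Set.mem_union, Set.mem_ofPred_eq]
      constructor
      · rintro ⟨rfl | h1 | h1, h2⟩
        · exact absurd hb h2
        · exact Or.inl ⟨h1, h2⟩
        · exact Or.inr ⟨h1, h2⟩
      · rintro (⟨h1, h2⟩ | ⟨h1, h2⟩)
        · exact ⟨Or.inr (Or.inl h1), h2⟩
        · exact ⟨Or.inr (Or.inr h1), h2⟩
    rw [h1, Set.ncard_union_eq]
    · rfl
    · rw [Set.disjoint_left]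
      rintro f ⟨h2, -⟩ ⟨h3, -⟩
      exact Set.disjoint_left.1 hde h2 h3

lemma glue_inj (hab : e = s(a, b)) (h : G.Adj a b) (hb : G.IsBridge e)
    {T S T' S' : (G.deleteEdges {e}).Subgraph} (hT : T ∈ US G e a) (hS : S ∈ US G e b)
    (hT' : T' ∈ US G e a) (hS' : S' ∈ US G e b) (hg : glue h T S = glue h T' S') :
    T = T' ∧ S = S' := by
  classical
  have hn := not_reach hab hb
  have key : ∀ T S : (G.deleteEdges {e}).Subgraph, T ∈ US G e a → S ∈ US G e b →
      (∀ x, x ∈ T.verts ↔ x ∈ (glue h T S).verts ∧ (G.deleteEdges {e}).Reachable a x) ∧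
      (∀ x, x ∈ S.verts ↔ x ∈ (glue h T S).verts ∧ (G.deleteEdges {e}).Reachable b x) ∧
      (∀ x y, T.Adj x y ↔ (glue h T S).Adj x y ∧ s(a, b) ≠ s(x, y) ∧
        (G.deleteEdges {e}).Reachable a x) ∧
      (∀ x y, S.Adj x y ↔ (glue h T S).Adj x y ∧ s(a, b) ≠ s(x, y) ∧
        (G.deleteEdges {e}).Reachable b x) := by
    intro T S hT hS
    obtain ⟨hT1, hT2⟩ := mem_filter.1 hT
    obtain ⟨hS1, hS2⟩ := mem_filter.1 hS
    have ra : ∀ x ∈ T.verts, (G.deleteEdges {e}).Reachable a x := fun x hx =>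
      reach_of_mem hT1 hT2 hx
    have rb : ∀ x ∈ S.verts, (G.deleteEdges {e}).Reachable b x := fun x hx =>
      reach_of_mem hS1 hS2 hx
    have hne : ∀ (T : (G.deleteEdges {e}).Subgraph) (x y : V), T.Adj x y → s(a, b) ≠ s(x, y) := by
      intro T x y hxy h1
      have h2 : s(x, y) ∈ T.edgeSet := Subgraph.mem_edgeSet.2 hxy
      have h3 := T.edgeSet_subset h2
      rw [edgeSet_deleteEdges] at h3
      exact h3.2 (Set.mem_singleton_iff.2 (hab.trans h1).symm)
    refine ⟨fun x => ?_, fun x => ?_, fun x y => ?_, fun x y => ?_⟩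
    · rw [glue_verts h T S hT2 hS2]
      refine ⟨fun hx => ⟨Or.inl hx, ra x hx⟩, ?_⟩
      rintro ⟨hx | hx, hr⟩
      · exact hx
      · exact absurd (hr.trans (rb x hx).symm) hn
    · rw [glue_verts h T S hT2 hS2]
      refine ⟨fun hx => ⟨Or.inr hx, rb x hx⟩, ?_⟩
      rintro ⟨hx | hx, hr⟩
      · exact absurd ((ra x hx).trans hr.symm) hn
      · exact hx
    · rw [glue_adj]
      refine ⟨fun hx => ⟨Or.inl (Or.inl hx), hne T x y hx, ra x (T.edge_vert hx)⟩, ?_⟩
      rintro ⟨(hx | hx) | hx, h1, hr⟩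
      · exact hx
      · exact absurd hx h1
      · exact absurd (hr.trans (rb x (S.edge_vert hx)).symm) hn
    · rw [glue_adj]
      refine ⟨fun hx => ⟨Or.inr hx, hne S x y hx, rb x (S.edge_vert hx)⟩, ?_⟩
      rintro ⟨(hx | hx) | hx, h1, hr⟩
      · exact absurd ((ra x (T.edge_vert hx)).trans hr.symm) hn
      · exact absurd hx h1
      · exact hx
  obtain ⟨k1, k2, k3, k4⟩ := key T S hT hS
  obtain ⟨l1, l2, l3, l4⟩ := key T' S' hT' hS'
  rw [← hg] at l1 l2 l3 l4
  refine ⟨Subgraph.ext ?_ ?_, Subgraph.ext ?_ ?_⟩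
  · ext x
    rw [k1, l1]
  · ext x y
    rw [k3, l3]
  · ext x
    rw [k2, l2]
  · ext x y
    rw [k4, l4]

open Classical in
/-- the subtrees of `G` which contain `e` -/
noncomputable def EE (G : SimpleGraph V) (e : Sym2 V) : Finset G.Subgraph :=
  (ST G).filter fun T => e ∈ T.edgeSet

lemma one_side (hab : e = s(a, b)) (h : G.Adj a b) (hb : G.IsBridge e) (c : ℕ) :
    (US G e b).card * ∑ T ∈ side G e a, (xx G e T - c) ≤
      nbr G * ∑ T ∈ EE G e, (ncn T - c) ^ 2 := by
  classical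
  have he : e ∈ G.edgeSet := by rw [hab]; exact h
  have h1 := side_sum G e a he hb c
  calc (US G e b).card * ∑ T ∈ side G e a, (xx G e T - c) ≤
      (US G e b).card * (nbr G * ∑ T ∈ US G e a, (xx G e T - c) ^ 2) :=
        Nat.mul_le_mul_left _ h1
    _ = nbr G * ∑ T ∈ US G e a, ∑ S ∈ US G e b, (xx G e T - c) ^ 2 := by
        simp only [Finset.sum_const, smul_eq_mul]
        rw [← Finset.mul_sum]
        ring
    _ ≤ nbr G * ∑ T ∈ US G e a, ∑ S ∈ US G e b, (xx G e T + xx G e S - c) ^ 2 := by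
        refine Nat.mul_le_mul_left _ (Finset.sum_le_sum fun T _ => Finset.sum_le_sum fun S _ => ?_)
        exact Nat.pow_le_pow_left (by omega) 2
    _ = nbr G * ∑ p ∈ US G e a ×ˢ US G e b, (ncn (glue h p.1 p.2) - c) ^ 2 := by
        rw [Finset.sum_product]
        congr 1
        refine Finset.sum_congr rfl fun T hT => Finset.sum_congr rfl fun S hS => ?_
        rw [(glue_mem hab h hb hT hS).2.2]
    _ = nbr G * ∑ R ∈ (US G e a ×ˢ US G e b).image (fun p => glue h p.1 p.2), (ncn R - c) ^ 2 := by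
        rw [Finset.sum_image]
        rintro ⟨T, S⟩ hp ⟨T', S'⟩ hp' hg
        obtain ⟨h2, h3⟩ := mem_product.1 hp
        obtain ⟨h4, h5⟩ := mem_product.1 hp'
        obtain ⟨h6, h7⟩ := glue_inj hab h hb h2 h3 h4 h5 hg
        rw [Prod.mk.injEq]
        exact ⟨h6, h7⟩
    _ ≤ nbr G * ∑ T ∈ EE G e, (ncn T - c) ^ 2 := by
        refine Nat.mul_le_mul_left _ (Finset.sum_le_sum_of_subset fun R hR => ?_)
        obtain ⟨p, hp, rfl⟩ := mem_image.1 hR
        obtain ⟨h2, h3⟩ := mem_product.1 hp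
        obtain ⟨h4, h5, -⟩ := glue_mem hab h hb h2 h3
        exact mem_filter.2 ⟨h4, h5⟩

end glue

end Pool.Agent.Run7.h487.MSO
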