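import Pool.Agent.Run7.h487.MSO.D

set_option autoImplicit false

/-!
# Bridges and other edges of a random subtree
-/

namespace Pool.Agent.Run7.h487.MSO

open Finset SimpleGraph

variable {V : Type} [Fintype V]

/-- the condition on the bridges -/
def Cond (G : SimpleGraph V) : Prop :=
  nbr G ≤ 1 ∨ ∀ a b, G.Adj a b → G.IsBridge s(a, b) →
    2 * nbr G ^ 2 ≤ (US G s(a, b) a).card

section good

variable {G : SimpleGraph V} {e : Sym2 V} {a b : V}

lemma split_sides (hG : G.Connected) (hab : e = s(a, b)) (c : ℕ) :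
    ∑ T ∈ ST (G.deleteEdges {e}), (xx G e T - c) ≤
      ∑ T ∈ side G e a, (xx G e T - c) + ∑ T ∈ side G e b, (xx G e T - c) := by
  classical
  have h1 : ST (G.deleteEdges {e}) ⊆ side G e a ∪ side G e b := by
    intro T hT
    have h2 := size_mem hT
    rw [mem_Icc] at h2
    have h3 : T.verts.Nonempty := by
      rw [Set.nonempty_iff_ne_empty]
      intro h4
      rw [h4, Set.ncard_empty] at h2
      omega
    obtain ⟨t, ht⟩ := h3
    rw [mem_union]
    rcases cover hG hab t with h4 | h4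
    · exact Or.inl (mem_filter.2 ⟨hT, fun w hw => h4.trans (reach_of_mem hT ht hw)⟩)
    · exact Or.inr (mem_filter.2 ⟨hT, fun w hw => h4.trans (reach_of_mem hT ht hw)⟩)
  calc ∑ T ∈ ST (G.deleteEdges {e}), (xx G e T - c) ≤
      ∑ T ∈ side G e a ∪ side G e b, (xx G e T - c) := Finset.sum_le_sum_of_subset h1
    _ ≤ _ := by
      have := Finset.sum_union_inter (s₁ := side G e a) (s₂ := side G e b)
        (f := fun T => xx G e T - c)
      omega

lemma side_zero (he : e ∈ G.edgeSet) (hb : G.IsBridge e) (c : ℕ)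
    (h : {w | (G.deleteEdges {e}).Reachable a w}.ncard ≤ 1) :
    ∑ T ∈ side G e a, (xx G e T - c) = 0 := by
  classical
  refine Finset.sum_eq_zero fun T hT => ?_
  obtain ⟨h1, h2⟩ := mem_filter.1 hT
  have h3 := (xx_size G e h1 he hb).1
  have h4 : T.verts.ncard ≤ {w | (G.deleteEdges {e}).Reachable a w}.ncard :=
    Set.ncard_le_ncard (fun w hw => h2 w hw) (Set.toFinite _)
  omega

lemma good (hG : G.Connected) (hC : Cond G) (hab : e = s(a, b)) (h : G.Adj a b)
    (hb : G.IsBridge e) (c : ℕ) :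
    nbr G * ∑ T ∈ ST (G.deleteEdges {e}), (xx G e T - c) ≤ ∑ T ∈ EE G e, (ncn T - c) ^ 2 := by
  have he : e ∈ G.edgeSet := by rw [hab]; exact h
  have hβ : 1 ≤ nbr G := (Set.ncard_pos (Set.toFinite _)).2 ⟨e, he, hb⟩
  have hab' : e = s(b, a) := by rw [hab]; exact Sym2.eq_swap
  have s1 := one_side hab h hb c
  have s2 := one_side hab' h.symm hb c
  have c1 := card_US G e b
  have c2 := card_US G e a
  have hs := split_sides hG hab c
  obtain ⟨n1, hn1⟩ : ∃ n1, n1 = {w | (G.deleteEdges {e}).Reachable a w}.ncard := ⟨_, rfl⟩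
  obtain ⟨n2, hn2⟩ : ∃ n2, n2 = {w | (G.deleteEdges {e}).Reachable b w}.ncard := ⟨_, rfl⟩
  rw [← hn1] at c2
  rw [← hn2] at c1
  obtain ⟨U1, hU1⟩ : ∃ U1, U1 = (US G e a).card := ⟨_, rfl⟩
  obtain ⟨U2, hU2⟩ : ∃ U2, U2 = (US G e b).card := ⟨_, rfl⟩
  rw [← hU1] at s2 c2
  rw [← hU2] at s1 c1
  obtain ⟨S1, hS1⟩ : ∃ S1, S1 = ∑ T ∈ side G e a, (xx G e T - c) := ⟨_, rfl⟩
  obtain ⟨S2, hS2⟩ : ∃ S2, S2 = ∑ T ∈ side G e b, (xx G e T - c) := ⟨_, rfl⟩
  obtain ⟨Q, hQ⟩ : ∃ Q, Q = ∑ T ∈ EE G e, (ncn T - c) ^ 2 := ⟨_, rfl⟩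
  obtain ⟨S, hS⟩ : ∃ S, S = ∑ T ∈ ST (G.deleteEdges {e}), (xx G e T - c) := ⟨_, rfl⟩
  obtain ⟨β, hβ'⟩ : ∃ β, β = nbr G := ⟨_, rfl⟩
  rw [← hS1, ← hS2, ← hS] at hs
  rw [← hS1, ← hQ, ← hβ'] at s1
  rw [← hS2, ← hQ, ← hβ'] at s2
  rw [← hQ, ← hS, ← hβ']
  rw [← hβ'] at hβ
  have big : 2 * β ^ 2 ≤ U1 → 2 * β ^ 2 ≤ U2 → β * S ≤ Q := by
    intro g1 g2
    have t1 : 2 * β ^ 2 * S1 ≤ β * Q := (Nat.mul_le_mul_right _ g2).trans s1
    have t2 : 2 * β ^ 2 * S2 ≤ β * Q := (Nat.mul_le_mul_right _ g1).trans s2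
    have t3 : 2 * β * S1 ≤ Q := by
      have t : β * (2 * β * S1) ≤ β * Q := by
        calc β * (2 * β * S1) = 2 * β ^ 2 * S1 := by ring
          _ ≤ β * Q := t1
      exact Nat.le_of_mul_le_mul_left t hβ
    have t4 : 2 * β * S2 ≤ Q := by
      have t : β * (2 * β * S2) ≤ β * Q := by
        calc β * (2 * β * S2) = 2 * β ^ 2 * S2 := by ring
          _ ≤ β * Q := t2
      exact Nat.le_of_mul_le_mul_left t hβ
    have t5 : β * S ≤ β * S1 + β * S2 := by
      rw [← Nat.mul_add]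
      exact Nat.mul_le_mul_left _ hs
    nlinarith
  rcases hC with hC | hC
  · have hβ1 : β = 1 := by omega
    have p1 : 1 ≤ n1 := by
      rw [hn1]
      exact (Set.ncard_pos (Set.toFinite _)).2 ⟨a, Reachable.refl _⟩
    have p2 : 1 ≤ n2 := by
      rw [hn2]
      exact (Set.ncard_pos (Set.toFinite _)).2 ⟨b, Reachable.refl _⟩
    rcases Nat.lt_or_ge n1 2 with g1 | g1
    · have z : S1 = 0 := by
        rw [hS1]
        exact side_zero he hb c (by omega)
      have t : 1 * S2 ≤ β * Q := (Nat.mul_le_mul_right _ (p1.trans c2)).trans s2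
      rw [hβ1] at t ⊢
      omega
    · rcases Nat.lt_or_ge n2 2 with g2 | g2
      · have z : S2 = 0 := by
          rw [hS2]
          exact side_zero he hb c (by omega)
        have t : 1 * S1 ≤ β * Q := (Nat.mul_le_mul_right _ (p2.trans c1)).trans s1
        rw [hβ1] at t ⊢
        omega
      · exact big (by rw [hβ1]; omega) (by rw [hβ1]; omega)
  · refine big ?_ ?_
    · rw [hβ', hU1]
      have := hC a b h (by rw [← hab]; exact hb)
      rw [← hab] at this
      exact this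
    · rw [hβ', hU2]
      have := hC b a h.symm (by rw [← hab']; exact hb)
      rw [← hab'] at this
      exact this

end good

lemma trunc (x y : ℕ) : (((x - y : ℕ) : ℝ)) ^ 2 + (((y - x : ℕ) : ℝ)) ^ 2 = ((x : ℝ) - y) ^ 2 := by
  rcases le_total x y with h | h
  · rw [Nat.sub_eq_zero_of_le h, Nat.cast_sub h]
    push_cast
    ring
  · rw [Nat.sub_eq_zero_of_le h, Nat.cast_sub h]
    push_cast
    ring

lemma trunc_le (x y : ℕ) : -(((y - x : ℕ) : ℝ)) ≤ (x : ℝ) - y := by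
  have : (y : ℝ) ≤ x + ((y - x : ℕ) : ℝ) := by exact_mod_cast (by omega : y ≤ x + (y - x))
  linarith

/-- `N² Var (nc)` -/
noncomputable def VV (G : SimpleGraph V) : ℝ :=
  ((ST G).card : ℝ) * ∑ T ∈ ST G, nc T ^ 2 - (∑ T ∈ ST G, nc T) ^ 2

lemma double_sum (G : SimpleGraph V) :
    ∑ T ∈ ST G, ∑ S ∈ ST G, (nc T - nc S) ^ 2 = 2 * VV G := by
  unfold VV
  have h1 : ∀ T ∈ ST G, ∑ S ∈ ST G, (nc T - nc S) ^ 2 =
      ((ST G).card : ℝ) * nc T ^ 2 - 2 * nc T * (∑ S ∈ ST G, nc S) + ∑ S ∈ ST G, nc S ^ 2 := by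
    intro T _
    rw [Finset.sum_congr rfl (g := fun S => nc T ^ 2 - 2 * nc T * nc S + nc S ^ 2)
      (fun S _ => by ring), Finset.sum_add_distrib, Finset.sum_sub_distrib, ← Finset.mul_sum,
      Finset.sum_const, nsmul_eq_mul]
  rw [Finset.sum_congr rfl h1, Finset.sum_add_distrib, Finset.sum_sub_distrib, ← Finset.mul_sum,
    Finset.sum_const, nsmul_eq_mul]
  have h2 : ∑ T ∈ ST G, 2 * nc T * (∑ S ∈ ST G, nc S) = 2 * (∑ T ∈ ST G, nc T) ^ 2 := by
    rw [← Finset.sum_mul, ← Finset.mul_sum]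
    ring
  rw [h2]
  ring

/-- **One bridge.** -/
lemma one_bridge {G : SimpleGraph V} (hG : G.Connected) (hC : Cond G) {e : Sym2 V}
    (he : e ∈ G.edgeSet) (hb : G.IsBridge e) (hnt : ∃ f ∈ G.edgeSet, ¬ G.IsBridge f) :
    -VV G < (nbr G : ℝ) * (((ST G).card : ℝ) * ∑ T ∈ EE G e, nc T -
      ((EE G e).card : ℝ) * ∑ T ∈ ST G, nc T) := by
  classical
  induction e with
  | h a b =>
  have hadj : G.Adj a b := he
  obtain ⟨β, hβ⟩ : ∃ β : ℝ, β = (nbr G : ℝ) := ⟨_, rfl⟩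
  have hβ0 : 0 ≤ β := by rw [hβ]; positivity
  have hcard : ((ST G).card : ℝ) = ((EE G s(a, b)).card : ℝ) +
      (((ST G).filter fun T => s(a, b) ∉ T.edgeSet).card : ℝ) := by
    unfold EE
    rw [← Finset.card_filter_add_card_filter_not (s := ST G) (fun T => s(a, b) ∈ T.edgeSet)]
    push_cast
    ring
  have hsum : ∑ T ∈ ST G, nc T = ∑ T ∈ EE G s(a, b), nc T +
      ∑ T ∈ (ST G).filter (fun T => s(a, b) ∉ T.edgeSet), nc T := by
    unfold EE
    rw [Finset.sum_filter_add_sum_filter_not]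
  have h1 : ((ST G).card : ℝ) * ∑ T ∈ EE G s(a, b), nc T -
      ((EE G s(a, b)).card : ℝ) * ∑ T ∈ ST G, nc T =
      ∑ R ∈ EE G s(a, b), ∑ T ∈ (ST G).filter (fun T => s(a, b) ∉ T.edgeSet), (nc R - nc T) := by
    simp only [Finset.sum_sub_distrib, Finset.sum_const, nsmul_eq_mul]
    rw [← Finset.mul_sum, hcard, hsum]
    ring
  have h2 : ∀ R ∈ EE G s(a, b),
      -(∑ S ∈ EE G s(a, b), (((ncn S - ncn R : ℕ) : ℝ)) ^ 2) ≤
      β * ∑ T ∈ (ST G).filter (fun T => s(a, b) ∉ T.edgeSet), (nc R - nc T) := by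
    intro R _
    have h3 := good hG hC rfl hadj hb (ncn R)
    have h4 : β * ∑ T ∈ (ST G).filter (fun T => s(a, b) ∉ T.edgeSet),
        (((ncn T - ncn R : ℕ) : ℝ)) ≤ ∑ S ∈ EE G s(a, b), (((ncn S - ncn R : ℕ) : ℝ)) ^ 2 := by
      rw [← sum_delete' G s(a, b) (fun T => (((ncn T - ncn R : ℕ) : ℝ))), hβ]
      exact_mod_cast h3
    have h5 : -(∑ T ∈ (ST G).filter (fun T => s(a, b) ∉ T.edgeSet),
        (((ncn T - ncn R : ℕ) : ℝ))) ≤
        ∑ T ∈ (ST G).filter (fun T => s(a, b) ∉ T.edgeSet), (nc R - nc T) := by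
      rw [← Finset.sum_neg_distrib]
      refine Finset.sum_le_sum fun T _ => ?_
      exact trunc_le (ncn R) (ncn T)
    have h6 := mul_le_mul_of_nonneg_left h5 hβ0
    linarith
  have h7 : ∑ R ∈ EE G s(a, b), ∑ S ∈ EE G s(a, b), (((ncn S - ncn R : ℕ) : ℝ)) ^ 2 =
      (∑ R ∈ EE G s(a, b), ∑ S ∈ EE G s(a, b), (nc R - nc S) ^ 2) / 2 := by
    have h8 : ∑ R ∈ EE G s(a, b), ∑ S ∈ EE G s(a, b), (nc R - nc S) ^ 2 =
        ∑ R ∈ EE G s(a, b), ∑ S ∈ EE G s(a, b), (((ncn R - ncn S : ℕ) : ℝ)) ^ 2 +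
        ∑ R ∈ EE G s(a, b), ∑ S ∈ EE G s(a, b), (((ncn S - ncn R : ℕ) : ℝ)) ^ 2 := by
      rw [← Finset.sum_add_distrib]
      refine Finset.sum_congr rfl fun R _ => ?_
      rw [← Finset.sum_add_distrib]
      refine Finset.sum_congr rfl fun S _ => ?_
      exact (trunc (ncn R) (ncn S)).symm
    have h9 : ∑ R ∈ EE G s(a, b), ∑ S ∈ EE G s(a, b), (((ncn R - ncn S : ℕ) : ℝ)) ^ 2 =
        ∑ R ∈ EE G s(a, b), ∑ S ∈ EE G s(a, b), (((ncn S - ncn R : ℕ) : ℝ)) ^ 2 :=
      Finset.sum_comm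
    rw [h8, h9]
    ring
  have h10 : ∑ R ∈ EE G s(a, b), ∑ S ∈ EE G s(a, b), (nc R - nc S) ^ 2 <
      ∑ T ∈ ST G, ∑ S ∈ ST G, (nc T - nc S) ^ 2 := by
    rw [← Finset.sum_product', ← Finset.sum_product']
    obtain ⟨f, hf1, hf2⟩ := hnt
    induction f with
    | h x y =>
    have hxy : G.Adj x y := hf1
    refine Finset.sum_lt_sum_of_subset (i := (G.singletonSubgraph x, G.subgraphOfAdj hxy))
      ?_ ?_ ?_ ?_ ?_
    · exact Finset.product_subset_product (Finset.filter_subset _ _) (Finset.filter_subset _ _)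
    · exact mem_product.2 ⟨single_mem G x, edge_mem hxy⟩
    · intro h
      have h11 := (mem_filter.1 (mem_product.1 h).1).2
      simp at h11
    · have h12 : nc (G.singletonSubgraph x) = 0 := by
        unfold nc
        simp
      have h13 : nc (G.subgraphOfAdj hxy) = 1 := by
        unfold nc
        have h14 : {f | f ∈ (G.subgraphOfAdj hxy).edgeSet ∧ ¬ G.IsBridge f} = {s(x, y)} := by
          ext f
          simp only [Set.mem_ofPred_eq, edgeSet_subgraphOfAdj, Set.mem_singleton_iff]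
          constructor
          · exact fun h => h.1
          · rintro rfl
            exact ⟨rfl, hf2⟩
        rw [h14, Set.ncard_singleton, Nat.cast_one]
      show 0 < (nc (G.singletonSubgraph x) - nc (G.subgraphOfAdj hxy)) ^ 2
      rw [h12, h13]
      norm_num
    · intro p _ _
      positivity
  have h11 := Finset.sum_le_sum h2
  rw [Finset.sum_neg_distrib, h7, ← Finset.mul_sum, ← h1] at h11
  rw [double_sum] at h10
  rw [← hβ]
  linarith

lemma nb_eq {G : SimpleGraph V} (T : G.Subgraph) : nb T =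
    ∑ e ∈ (Set.toFinite {e : Sym2 V | e ∈ G.edgeSet ∧ G.IsBridge e}).toFinset,
      Set.indicator {e | e ∈ T.edgeSet} (fun _ => (1 : ℝ)) e := by
  classical
  have h1 : ∀ e, Set.indicator {e | e ∈ T.edgeSet} (fun _ => (1 : ℝ)) e =
      if e ∈ T.edgeSet then 1 else 0 := fun e => by
    rw [Set.indicator_apply]
    rfl
  simp only [h1]
  rw [Finset.sum_ite, Finset.sum_const_zero, add_zero, Finset.sum_const, nsmul_eq_mul, mul_one]
  unfold nb
  rw [← Set.ncard_coe_finset]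
  congr 2
  ext e
  simp only [Set.mem_ofPred_eq, coe_filter, Set.Finite.mem_toFinset]
  constructor
  · rintro ⟨h1, h2⟩
    exact ⟨⟨T.edgeSet_subset h1, h2⟩, h1⟩
  · rintro ⟨⟨-, h2⟩, h1⟩
    exact ⟨h1, h2⟩

/-- **The covariance is positive.** -/
theorem cov_pos {G : SimpleGraph V} (hG : G.Connected) (hC : Cond G)
    (hnt : ∃ f ∈ G.edgeSet, ¬ G.IsBridge f) : 0 < cov G size nc := by
  classical
  have : Nonempty V := hG.nonempty
  obtain ⟨N, hN⟩ : ∃ N : ℝ, N = ((ST G).card : ℝ) := ⟨_, rfl⟩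
  have hN0 : 0 < N := by rw [hN]; exact card_pos G
  obtain ⟨BE, hBE⟩ : ∃ BE : Finset (Sym2 V),
    BE = (Set.toFinite {e : Sym2 V | e ∈ G.edgeSet ∧ G.IsBridge e}).toFinset := ⟨_, rfl⟩
  have hcard : BE.card = nbr G := by
    rw [hBE]
    unfold nbr
    rw [← Set.ncard_eq_toFinset_card]
  have hV : 0 < VV G := by
    have h1 := double_sum G
    obtain ⟨f, hf1, hf2⟩ := hnt
    have h2 := var_nc_pos G hf1 hf2
    have h3 : cov G nc nc = VV G / N ^ 2 := by
      unfold cov avg VV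
      rw [← hN, Finset.sum_congr rfl (g := fun T => nc T ^ 2) (fun T _ => by ring)]
      field_simp
    rw [h3] at h2
    by_contra h4
    have : VV G / N ^ 2 ≤ 0 := div_nonpos_of_nonpos_of_nonneg (not_lt.1 h4) (by positivity)
    linarith
  have h1 : cov G size nc = (N * ∑ T ∈ ST G, nb T * nc T - (∑ T ∈ ST G, nb T) *
      (∑ T ∈ ST G, nc T) + VV G) / N ^ 2 := by
    rw [cov_size]
    unfold cov avg VV
    rw [← hN, Finset.sum_congr rfl (g := fun T => nc T ^ 2) (f := fun T => nc T * nc T)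
      (fun T _ => by ring)]
    field_simp
  have h2 : N * ∑ T ∈ ST G, nb T * nc T - (∑ T ∈ ST G, nb T) * (∑ T ∈ ST G, nc T) =
      ∑ e ∈ BE, (N * ∑ T ∈ EE G e, nc T - ((EE G e).card : ℝ) * ∑ T ∈ ST G, nc T) := by
    rw [Finset.sum_sub_distrib, ← Finset.mul_sum, ← Finset.sum_mul]
    congr 1
    · congr 1
      have h3 : ∀ T : G.Subgraph, nb T * nc T =
          ∑ e ∈ BE, if e ∈ T.edgeSet then nc T else 0 := by
        intro T
        rw [nb_eq, ← hBE, Finset.sum_mul]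
        refine Finset.sum_congr rfl fun e _ => ?_
        rw [Set.indicator_apply]
        by_cases h : e ∈ T.edgeSet
        · rw [if_pos h, if_pos (show e ∈ {e | e ∈ T.edgeSet} from h), one_mul]
        · rw [if_neg h, if_neg (show e ∉ {e | e ∈ T.edgeSet} from h), zero_mul]
      rw [Finset.sum_congr rfl (fun T _ => h3 T), Finset.sum_comm]
      exact Finset.sum_congr rfl fun e _ => by
        unfold EE
        rw [Finset.sum_filter]
    · congr 1
      have h3 : ∀ T : G.Subgraph, nb T = ∑ e ∈ BE, if e ∈ T.edgeSet then (1 : ℝ) else 0 := by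
        intro T
        rw [nb_eq, ← hBE]
        refine Finset.sum_congr rfl fun e _ => ?_
        rw [Set.indicator_apply]
        by_cases h : e ∈ T.edgeSet
        · rw [if_pos h, if_pos (show e ∈ {e | e ∈ T.edgeSet} from h)]
        · rw [if_neg h, if_neg (show e ∉ {e | e ∈ T.edgeSet} from h)]
      rw [Finset.sum_congr rfl (fun T _ => h3 T), Finset.sum_comm]
      exact Finset.sum_congr rfl fun e _ => by
        unfold EE
        rw [Finset.sum_ite, Finset.sum_const_zero, add_zero, Finset.sum_const, nsmul_eq_mul,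
          mul_one]
  rw [h1, h2]
  refine div_pos ?_ (by positivity)
  rcases Finset.eq_empty_or_nonempty BE with h3 | h3
  · rw [h3, Finset.sum_empty, zero_add]
    exact hV
  · have hβ : (0 : ℝ) < (nbr G : ℝ) := by
      rw [← hcard]
      exact_mod_cast Finset.card_pos.2 h3
    have h4 : ∑ _e ∈ BE, -VV G < ∑ e ∈ BE, (nbr G : ℝ) *
        (N * ∑ T ∈ EE G e, nc T - ((EE G e).card : ℝ) * ∑ T ∈ ST G, nc T) := by
      refine Finset.sum_lt_sum_of_nonempty h3 fun e he => ?_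
      rw [hBE, Set.Finite.mem_toFinset] at he
      rw [hN]
      exact one_bridge hG hC he.1 he.2 hnt
    rw [Finset.sum_const, nsmul_eq_mul, hcard, ← Finset.mul_sum] at h4
    have h5 := lt_of_mul_lt_mul_left h4 hβ.le
    linarith

end Pool.Agent.Run7.h487.MSO
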